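import Pool.Agent.H.MP_b3426d_an.D
import Pool.Agent.H.MP_f65947_an.A

open Set Metric Filter Topology Complex InnerProductSpace
open scoped ContDiff

namespace Pool.Agent.Results.MP_b3426d_an.Both

/-- Plurisubharmonic: usc, below `+∞`, and subharmonic on discs in complex lines. -/
def Psh (Ω : Set (ℂ × ℂ)) (v : ℂ × ℂ → EReal) : Prop :=
  UpperSemicontinuousOn v Ω ∧ (∀ p ∈ Ω, v p ≠ ⊤) ∧ ∀ (p w : ℂ × ℂ) (q : ℂ → ℂ),
    (∀ z ∈ closedBall (0 : ℂ) 1, p + z • w ∈ Ω) → Differentiable ℂ q →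
    (∀ z ∈ sphere (0 : ℂ) 1, v (p + z • w) ≤ (q z).re) → v p ≤ (q 0).re

/-- Maximal plurisubharmonic function. -/
def MaxPsh (Ω : Set (ℂ × ℂ)) (φ : ℂ × ℂ → ℝ) : Prop :=
  Psh Ω (fun p => φ p) ∧ ∀ v, Psh Ω v → (∃ K, IsCompact K ∧ K ⊆ Ω ∧ ∀ p ∈ Ω \ K, v p ≤ φ p) → ∀ p ∈ Ω, v p ≤ φ p

/-- The points where the complex Hessian does not vanish. -/
def NZ (Ω : Set (ℂ × ℂ)) (φ : ℂ × ℂ → ℝ) : Set (ℂ × ℂ) :=
  {p ∈ Ω | ∃ w, fderiv ℝ (fderiv ℝ φ) p w w + fderiv ℝ (fderiv ℝ φ) p (I • w) (I • w) ≠ 0}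

open H.MP_b3426d_an

lemma lp {Ω : Set V} (ho : IsOpen Ω) {v : V → EReal} (h : Psh Ω v) {p : V} (hp : p ∈ Ω) : LP v p :=
  fun w q k k0 dq hq e => by
  obtain ⟨r, r0, hr⟩ := nhds_basis_closedBall.eventually_iff.1 (hq.and
    ((Continuous.tendsto' (f := fun z : ℂ => p + z • w) (by fun_prop) 0 p (by simp)).eventually (ho.mem_nhds hp)))
  have m (z) (hz : z ∈ closedBall (0 : ℂ) 1) := hr (x := z * r) (by
    simpa [abs_of_pos r0] using mul_le_of_le_one_left r0.le (mem_closedBall_zero_iff.1 hz))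
  have := h.2.2 p ((r : ℂ) • w) (fun z => q (z * r) - (k * r ^ 2 : ℝ)) (fun z hz => by
    rw [smul_smul]; exact (m z hz).2) (by fun_prop) fun z hz => by
      have := (m z (sphere_subset_closedBall hz)).1
      rwa [norm_mul, mem_sphere_zero_iff_norm.1 hz, one_mul, norm_real, Real.norm_of_nonneg r0.le, ← smul_smul] at this
  rw [e, EReal.coe_le_coe_iff, zero_mul, sub_re, ofReal_re] at this
  linarith [mul_pos k0 (pow_pos r0 2)]

lemma ps {Ω : Set V} {u : V → ℝ} (c : ContinuousOn u Ω) (h : ∀ x ∈ Ω, Sub u x) : Psh Ω fun p => u p :=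
  ⟨(continuous_coe_real_ereal.comp_continuousOn c).upperSemicontinuousOn, fun _ _ => EReal.coe_ne_top _,
    fun p w q m dq k => EReal.coe_le_coe (by
      simpa using SM (γ := fun z => p + z • w) (by fun_prop) (c.comp (by fun_prop) m)
        (fun z hz => h _ (m z (ball_subset_closedBall hz))) dq.diffContOnCl
        (fun z hz => EReal.coe_le_coe_iff.1 (k z hz)) 0 (by simp))⟩

theorem result :
    (∀ (Ω : Set (ℂ × ℂ)) (φ : ℂ × ℂ → ℝ), IsOpen Ω → ContDiffOn ℝ 2 φ Ω → MaxPsh Ω φ → ∀ p ∈ NZ Ω φ,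
      ∃ (e : OpenPartialHomeomorph (ℂ × ℂ) (ℂ × ℂ)) (r s : ℝ), e.source = ball 0 r ×ˢ ball 0 s ∧
        p ∈ e.target ∧ e.target ⊆ NZ Ω φ ∧
        (∀ t ∈ ball (0 : ℂ) s, ∀ z ∈ ball (0 : ℂ) r, (∃ d ≠ 0, HasDerivAt (fun z : ℂ => e (z, t)) d z) ∧
          HarmonicAt (fun z : ℂ => φ (e (z, t))) z) ∧
        ∀ f : ℂ → ℂ × ℂ, DifferentiableOn ℂ f (ball 0 1) → MapsTo f (ball 0 1) e.target →
          HarmonicOnNhd (fun z => φ (f z)) (ball 0 1) → ∀ z ∈ ball 0 1, (e.symm (f z)).2 = (e.symm (f 0)).2) ∧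
    ∃ φ : ℂ × ℂ → ℝ, ContDiff ℝ ∞ φ ∧ MaxPsh (ball 0 1) φ ∧ 0 ∈ closure (NZ (ball 0 1) φ) ∧
      ∀ f : ℂ → ℂ × ℂ, DifferentiableOn ℂ f (ball 0 1) → MapsTo f (ball 0 1) (ball 0 1) → f 0 = 0 →
        HarmonicOnNhd (fun z => φ (f z)) (ball 0 1) → ∀ z ∈ ball 0 1, f z = 0 := by
  refine ⟨fun Ω φ ho hφ ⟨h, hm⟩ p ⟨hp, w, hw⟩ => ?_, ?_⟩
  · have ca (x) (hx : x ∈ Ω) := hφ.contDiffAt (ho.mem_nhds hx)
    have h0 (x) (hx : x ∈ Ω) := lvn (ca x hx) (lp ho h hx)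
    have c : ContinuousAt (fun x => Lv φ x w) p := by
      have := (((ca p hp).fderiv_right (m := 1) (by norm_num)).fderiv_right (m := 0) (by norm_num)).continuousAt
      unfold Lv; fun_prop
    obtain ⟨e, k⟩ := loc (U := NZ Ω φ) (mem_of_superset (inter_mem (ho.mem_nhds hp) (c.eventually_ne hw))
      fun x hx => ⟨hx.1, w, hx.2⟩) (ca p hp) ((h0 p hp w).lt_of_ne' hw) fun x hx => ⟨sub (ca x hx.1) (h0 x hx.1), by
        by_contra k
        obtain ⟨ψ, c, s, l, K, a, b, d⟩ := bump ho hx.1 hφ h0 fun w w0 => not_le.1 fun e => k (deg (ca x hx.1) w0 e)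
        exact l.not_ge (EReal.coe_le_coe_iff.1 (hm _ (ps c s) ⟨K, a, b, fun x hx => EReal.coe_le_coe (d x hx)⟩ x hx.1))⟩
    exact ⟨e, _, _, k⟩
  obtain ⟨u, cu, u0, hu⟩ := H.MP_f65947_an.main
  simp only [iteratedFDeriv_two_apply, Matrix.cons_val_zero, Matrix.cons_val_one, ← mem_ball_zero_iff] at hu
  have c2 : ContDiff ℝ 2 u := cu.of_le (WithTop.coe_le_coe.2 le_top)
  have nd (f : ℂ → V) (df : DifferentiableOn ℂ f (ball 0 1)) (m : MapsTo f (ball 0 1) (ball 0 1)) (f0 : f 0 = 0)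
      (hf : HarmonicOnNhd (fun z => u (f z)) (ball 0 1)) : ∀ z ∈ ball 0 1, f z = 0 :=
    H.MP_f65947_an.nodisc df f0 fun z hz n => mem_closedBall_zero_iff.1 (by
      simpa using (hu _ (m hz)).2.1 (HZ hf (fun z hz => (hu _ (m hz)).1) (by simp [f0, u0]) z hz) n)
  refine ⟨u, cu, ⟨ps cu.continuous.continuousOn fun x hx => sub c2.contDiffAt (hu x hx).2.2.1,
    fun v hv ⟨K, a, b, d⟩ p hp => ?_⟩, ?_, nd⟩
  · obtain ⟨K', a', i, s⟩ := exists_compact_between (a.insert p) isOpen_ball (insert_subset hp b)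
    refine CP a' (hv.1.mono s) (fun x hx => hv.2.1 x (s hx)) cu.continuous.continuousOn (fun x hx l => ?_) p
      (interior_subset (i (mem_insert _ _)))
    obtain ⟨w, w0, e⟩ := (hu x (s hx)).2.2.2
    exact ⟨mem_interior_iff_mem_nhds.1 (i (.inr (not_not.1 fun k => l.not_ge (d x ⟨s hx, k⟩)))),
      deg c2.contDiffAt w0 e.le, lp isOpen_ball hv (s hx)⟩
  by_contra k
  obtain ⟨r, r0, hr⟩ := Metric.mem_nhds_iff.1 (inter_mem (isClosed_closure.isOpen_compl.mem_nhds k)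
    (ball_mem_nhds _ one_pos))
  let A : ℂ →L[ℝ] V := ((ContinuousLinearMap.id ℂ ℂ).smulRight ((r : ℂ), (0 : ℂ))).restrictScalars ℝ
  have m (z) (hz : z ∈ ball (0 : ℂ) 1) := hr (a := A z) (by
    simpa [A, abs_of_pos r0, r0] using mul_lt_of_lt_one_left r0 (mem_ball_zero_iff.1 hz))
  have := nd A ((ContinuousLinearMap.id ℂ ℂ).smulRight ((r : ℂ), (0 : ℂ))).differentiableOn (fun z hz => (m z hz).2) (by simp) (fun z hz => ⟨(c2.comp A.contDiff).contDiffAt,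
    (eventually_mem_set.2 (isOpen_ball.mem_nhds hz)).mono fun z hz => ?_⟩) (1 / 2) (by norm_num)
  · simp [A, r0.ne'] at this
  have := A.iteratedFDeriv_comp_right c2 z le_rfl
  simp only [Function.comp_def] at this
  by_contra e
  refine (m z hz).1 (subset_closure ⟨(m z hz).2, A 1, ?_⟩)
  simp only [laplacian_eq_iteratedFDeriv_complexPlane, this, ContinuousMultilinearMap.compContinuousLinearMap_apply] at e
  simpa [iteratedFDeriv_two_apply, A] using e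

end Pool.Agent.Results.MP_b3426d_an.Both
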